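import Mathlib.Combinatorics.SimpleGraph.Diam
import Mathlib.Combinatorics.SimpleGraph.Hasse
import Mathlib.Data.Fintype.Powerset
import Mathlib.Data.Fintype.Prod
import Mathlib.Tactic

/-!
# A graph with smaller neighbor-locating chromatic number than the path of the same diameter

The graph `gr` below has `26` vertices: a path `0, 1, ..., 24` and one more vertex `25` adjacent to
`16`, `17` and `18`. Its diameter is `24` and it has a neighbor-locating colouring with `4` colours,
while the path with `25` vertices needs at least `5` colours.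
-/

namespace Pool.Agent.Results.MP_fdbc88_co.SmallerThanPath

open SimpleGraph Finset

/-- The set of colours appearing in the open neighbourhood of `v`. -/
def colourNbhd {V : Type} (G : SimpleGraph V) {k : ℕ} (c : V → Fin k) (v : V) : Set (Fin k) :=
  {i | ∃ w, G.Adj v w ∧ c w = i}

/-- `c` is a neighbor-locating proper colouring of `G` with exactly `k` (nonempty) colour classes:
two distinct vertices of the same colour have different colour-neighbourhoods. -/
def IsNeighborLocating {V : Type} (G : SimpleGraph V) (k : ℕ) (c : V → Fin k) : Prop :=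
  Function.Surjective c ∧ (∀ u v, G.Adj u v → c u ≠ c v) ∧
    ∀ u v, u ≠ v → c u = c v → colourNbhd G c u ≠ colourNbhd G c v

/-- The neighbor-locating chromatic number. -/
noncomputable def chiNL {V : Type} (G : SimpleGraph V) : ℕ :=
  sInf {k | ∃ c : V → Fin k, IsNeighborLocating G k c}

/-- adjacency of the example. -/
def adjB (a b : Fin 26) : Bool :=
  (a.val + 1 == b.val && b.val ≤ 24) || (b.val + 1 == a.val && a.val ≤ 24) ||
  (a.val == 25 && 16 ≤ b.val && b.val ≤ 18) || (b.val == 25 && 16 ≤ a.val && a.val ≤ 18)

/-- The example: the path `0, ..., 24` plus the vertex `25` joined to `16, 17, 18`. -/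
def gr : SimpleGraph (Fin 26) where
  Adj a b := adjB a b = true
  symm := ⟨by decide +kernel⟩
  loopless := ⟨by decide +kernel⟩

instance : DecidableRel gr.Adj := fun a b => inferInstanceAs (Decidable (adjB a b = true))

/-- distances in the example. -/
def D (a b : Fin 26) : ℕ :=
  if a.val = 25 then (if b.val = 25 then 0 else if b.val ≤ 16 then 17 - b.val
    else if b.val = 17 then 1 else b.val - 17)
  else if b.val = 25 then (if a.val ≤ 16 then 17 - a.val
    else if a.val = 17 then 1 else a.val - 17)
  else (a.val - b.val) + (b.val - a.val)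

theorem D_step : ∀ a b : Fin 26, a ≠ b → ∃ w, gr.Adj a w ∧ D w b + 1 = D a b := by
  decide +kernel

theorem D_le : ∀ a b : Fin 26, D a b ≤ 24 := by decide +kernel

theorem D_zero : ∀ a b : Fin 26, D a b = 0 → a = b := by decide +kernel

theorem edist_le_D (n : ℕ) : ∀ a b : Fin 26, D a b = n → gr.edist a b ≤ n := by
  induction n with
  | zero =>
    intro a b h
    rw [D_zero a b h, SimpleGraph.edist_self]
    simp
  | succ n ih =>
    intro a b h
    have hab : a ≠ b := by
      rintro rfl
      have : ∀ a : Fin 26, D a a = 0 := by decide +kernel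
      rw [this a] at h
      omega
    obtain ⟨w, hw, hD⟩ := D_step a b hab
    have h1 : gr.edist w b ≤ n := ih w b (by omega)
    have h2 : gr.edist a w = 1 := SimpleGraph.edist_eq_one_iff_adj.mpr hw
    calc gr.edist a b ≤ gr.edist a w + gr.edist w b := SimpleGraph.edist_triangle
      _ ≤ 1 + n := by rw [h2]; gcongr
      _ = ((n + 1 : ℕ) : ℕ∞) := by push_cast; rw [add_comm]

/-- potential used for the lower bound on the distance from `0` to `24`. -/
def pot (a : Fin 26) : ℕ := if a.val = 25 then 17 else a.val

theorem pot_step : ∀ a b : Fin 26, gr.Adj a b → pot b ≤ pot a + 1 := by decide +kernel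

theorem pot_walk {a b : Fin 26} (p : gr.Walk a b) : pot b ≤ pot a + p.length := by
  induction p with
  | nil => simp
  | cons h p ih =>
    have := pot_step _ _ h
    rw [SimpleGraph.Walk.length_cons]
    omega

theorem ediam_gr : gr.ediam = 24 := by
  apply le_antisymm
  · apply SimpleGraph.ediam_le_of_edist_le
    intro u v
    refine (edist_le_D _ u v rfl).trans ?_
    exact_mod_cast D_le u v
  · refine le_trans ?_ (SimpleGraph.edist_le_ediam (u := (0 : Fin 26)) (v := 24))
    have hne : gr.edist 0 24 ≠ ⊤ := by
      intro h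
      have h2 := edist_le_D _ 0 24 rfl
      rw [h] at h2
      exact absurd h2 (by simp)
    obtain ⟨p, hp⟩ := (SimpleGraph.reachable_of_edist_ne_top hne).exists_walk_length_eq_edist
    rw [← hp]
    have := pot_walk p
    have h0 : pot 0 = 0 := by decide
    have h24 : pot 24 = 24 := by decide
    rw [h0, h24] at this
    exact_mod_cast (by omega : 24 ≤ p.length)

theorem diam_gr : gr.diam = 24 := by
  unfold SimpleGraph.diam
  rw [ediam_gr]
  rfl

theorem connected_gr : gr.Connected := by
  rw [SimpleGraph.connected_iff_ediam_ne_top, ediam_gr]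
  exact ENat.natCast_ne_top 24

/-- the colouring with four colours. -/
def col (a : Fin 26) : Fin 4 :=
  ![0, 1, 3, 1, 3, 0, 2, 1, 3, 2, 1, 2, 1, 0, 2, 3, 2, 1, 3, 2, 3, 0, 3, 0, 1, 0] a

theorem col_proper : ∀ u v : Fin 26, gr.Adj u v → col u ≠ col v := by decide +kernel

theorem col_surj : ∀ i : Fin 4, ∃ a : Fin 26, col a = i := by decide +kernel

theorem col_sep : ∀ u v : Fin 26, u ≠ v → col u = col v → ∃ i : Fin 4,
    ¬ ((∃ w, gr.Adj u w ∧ col w = i) ↔ (∃ w, gr.Adj v w ∧ col w = i)) := by
  decide +kernel

theorem col_NL : IsNeighborLocating gr 4 col := by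
  refine ⟨col_surj, col_proper, ?_⟩
  intro u v huv hc h
  obtain ⟨i, hi⟩ := col_sep u v huv hc
  apply hi
  have := Set.ext_iff.mp h i
  simpa [colourNbhd] using this

theorem chiNL_gr : chiNL gr ≤ 4 := Nat.sInf_le ⟨col, col_NL⟩

/-- the labels available with four colours when colour-neighbourhoods have one or two elements. -/
def labels : Finset (Fin 4 × Finset (Fin 4)) :=
  Finset.univ.filter (fun p => p.1 ∉ p.2 ∧ p.2.Nonempty ∧ p.2.card ≤ 2)

theorem card_labels : labels.card = 24 := by decide +kernel

theorem path_nbrs : ∀ v : Fin 25, (Finset.univ.filter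
    (fun w : Fin 25 => v.val + 1 = w.val ∨ w.val + 1 = v.val)).card ≤ 2 ∧
    (Finset.univ.filter (fun w : Fin 25 => v.val + 1 = w.val ∨ w.val + 1 = v.val)).Nonempty := by
  decide +kernel

theorem no_four (c : Fin 25 → Fin 4) (hp : ∀ u v, (pathGraph 25).Adj u v → c u ≠ c v)
    (hs : ∀ u v, u ≠ v → c u = c v → colourNbhd (pathGraph 25) c u ≠
      colourNbhd (pathGraph 25) c v) : False := by
  classical
  let N : Fin 25 → Finset (Fin 25) := fun v =>
    Finset.univ.filter (fun w : Fin 25 => v.val + 1 = w.val ∨ w.val + 1 = v.val)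
  have hN : ∀ v w, w ∈ N v ↔ (pathGraph 25).Adj v w := by
    intro v w
    rw [pathGraph_adj]
    simp [N]
  let S : Fin 25 → Finset (Fin 4) := fun v => (N v).image c
  have hS : ∀ v, (S v : Set (Fin 4)) = colourNbhd (pathGraph 25) c v := by
    intro v
    ext i
    simp only [S, Finset.coe_image, Set.mem_image, Finset.mem_coe, colourNbhd, Set.mem_ofPred_eq, hN]
  let L : Fin 25 → Fin 4 × Finset (Fin 4) := fun v => (c v, S v)
  have hinj : Function.Injective L := by
    intro u v h
    by_contra hne
    simp only [L, Prod.mk.injEq] at h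
    exact hs u v hne h.1 (by rw [← hS, ← hS, h.2])
  have hmem : ∀ v ∈ (Finset.univ : Finset (Fin 25)), L v ∈ labels := by
    intro v _
    simp only [labels, Finset.mem_filter, Finset.mem_univ, true_and, L]
    refine ⟨?_, ?_, ?_⟩
    · intro h
      obtain ⟨w, hw, hcw⟩ := Finset.mem_image.mp h
      exact hp v w ((hN v w).mp hw) hcw.symm
    · exact Finset.Nonempty.image (path_nbrs v).2 c
    · exact Finset.card_image_le.trans (path_nbrs v).1
  have := Finset.card_le_card_of_injOn L hmem hinj.injOn
  rw [card_labels] at this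
  simp at this

theorem five_le : 5 ≤ chiNL (pathGraph 25) := by
  have hne : {k | ∃ c : Fin 25 → Fin k, IsNeighborLocating (pathGraph 25) k c}.Nonempty := by
    refine ⟨25, id, Function.surjective_id, ?_, ?_⟩
    · intro u v h
      exact h.ne
    · intro u v huv h
      exact absurd h huv
  refine le_csInf hne ?_
  rintro k ⟨c, -, hp, hs⟩
  by_contra hk
  have hk4 : k ≤ 4 := by omega
  let c' : Fin 25 → Fin 4 := fun v => Fin.castLE hk4 (c v)
  have hinj : Function.Injective (Fin.castLE hk4) := Fin.castLE_injective hk4
  refine no_four c' ?_ ?_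
  · intro u v h h'
    exact hp u v h (hinj h')
  · intro u v huv h h'
    refine hs u v huv (hinj h) ?_
    ext i
    have := Set.ext_iff.mp h' (Fin.castLE hk4 i)
    simp only [colourNbhd, Set.mem_ofPred_eq, c', hinj.eq_iff] at this ⊢
    exact this

/-- There is a connected graph `G` on `26` vertices of diameter `d = 24` whose neighbor-locating
chromatic number (at most `4`) is smaller than that (at least `5`) of the path with `d + 1 = 25`
vertices, which has the same diameter. -/
theorem result : ∃ G : SimpleGraph (Fin 26), G.Connected ∧ G.diam = 24 ∧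
    chiNL G ≤ 4 ∧ 5 ≤ chiNL (pathGraph (24 + 1)) ∧ chiNL G < chiNL (pathGraph (24 + 1)) := by
  have h5 : 5 ≤ chiNL (pathGraph (24 + 1)) := five_le
  have h4 := chiNL_gr
  exact ⟨gr, connected_gr, diam_gr, h4, h5, by omega⟩

end Pool.Agent.Results.MP_fdbc88_co.SmallerThanPath
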